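import Pool.Agent.MP_61130f_an.Mg.Main

/-! Long curves descend under a strongly sheared map. -/

namespace Pool.Agent.MP_61130f_an

open Set Function

lemma gsub {g : ℝ → ℝ} (hg : Continuous g) {a b lo hi : ℝ} (hl : lo ≤ hi) (ha : g a ≤ lo)
    (hb : hi ≤ g b) : ∃ p ∈ uIcc a b, ∃ q ∈ uIcc a b, g p = lo ∧ g q = hi ∧
      ∀ t ∈ uIcc p q, g t ∈ Icc lo hi := by
  have iv : ∀ x y v, g x ≤ v → v ≤ g y → ∃ z ∈ uIcc x y, g z = v := fun x y v h1 h2 =>
    intermediate_value_uIcc hg.continuousOn (mem_uIcc_of_le h1 h2)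
  have hK : IsCompact ((uIcc a b ×ˢ uIcc a b) ∩ {z : ℝ × ℝ | g z.1 = lo ∧ g z.2 = hi}) :=
    (isCompact_uIcc.prod isCompact_uIcc).inter_right
      ((isClosed_eq (by fun_prop) continuous_const).inter
        (isClosed_eq (by fun_prop) continuous_const))
  obtain ⟨p0, hp0, e0⟩ := iv a b lo ha (hl.trans hb)
  obtain ⟨q0, hq0, e1⟩ := iv a b hi (ha.trans hl) hb
  obtain ⟨⟨p, q⟩, ⟨⟨hp, hq⟩, e2, e3⟩, hmin⟩ := hK.exists_isMinOn
    (f := fun z : ℝ × ℝ => |z.1 - z.2|) ⟨(p0, q0), ⟨hp0, hq0⟩, e0, e1⟩ (by fun_prop)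
  simp only at hp hq e2 e3
  refine ⟨p, hp, q, hq, e2, e3, fun t ht => ⟨not_lt.1 fun hh => ?_, not_lt.1 fun hh => ?_⟩⟩
  · obtain ⟨z, hz, ez⟩ := iv t q lo hh.le (by rw [e3]; exact hl)
    have hz' : z ∈ uIcc a b := uIcc_subset_uIcc (uIcc_subset_uIcc hp hq ht) hq hz
    have k : |p - q| ≤ |z - q| := hmin (a := (z, q)) ⟨⟨hz', hq⟩, ez, e3⟩
    have hne : t ≠ p := fun e => by rw [e, e2] at hh; exact lt_irrefl _ hh
    rcases mem_uIcc.1 ht with k1 | k1 <;> rcases mem_uIcc.1 hz with k2 | k2 <;>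
      rcases abs_cases (p - q) with k3 | k3 <;> rcases abs_cases (z - q) with k4 | k4 <;>
      exact hne (by linarith [k1.1, k1.2, k2.1, k2.2, k3.1, k3.2, k4.1, k4.2])
  · obtain ⟨z, hz, ez⟩ := iv p t hi (by rw [e2]; exact hl) hh.le
    have hz' : z ∈ uIcc a b := uIcc_subset_uIcc hp (uIcc_subset_uIcc hp hq ht) hz
    have k : |p - q| ≤ |p - z| := hmin (a := (p, z)) ⟨⟨hp, hz'⟩, e2, ez⟩
    have hne : t ≠ q := fun e => by rw [e, e3] at hh; exact lt_irrefl _ hh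
    rcases mem_uIcc.1 ht with k1 | k1 <;> rcases mem_uIcc.1 hz with k2 | k2 <;>
      rcases abs_cases (p - q) with k3 | k3 <;> rcases abs_cases (p - z) with k4 | k4 <;>
      exact hne (by linarith [k1.1, k1.2, k2.1, k2.2, k3.1, k3.2, k4.1, k4.2])

/-- some vertical segment of the window below `w` is pushed down by the billiard map -/
def Dn (γ τ : ℝ → ℂ) (L δ w : ℝ) : Prop :=
  ∃ s, ∀ y ∈ Icc (w - δ) w, (BB γ τ L (s, y)).2 ≤ w - 2 * δ

/-- some vertical segment of the window below `w` is pushed up -/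
def Up (γ τ : ℝ → ℂ) (L δ w : ℝ) : Prop :=
  ∃ s, ∀ y ∈ Icc (w - δ) w, w ≤ (BB γ τ L (s, y)).2

variable {γ τ : ℝ → ℂ} {L d δ : ℝ}

lemma Ov.gstep (h : Ov γ τ L) (hδ : 0 < δ) (hd : 3 * L ≤ d * δ) {w : ℝ} (hD : Dn γ τ L δ w)
    (hU : Up γ τ L δ w) {f : ℝ → ℝ × ℝ} (hf : Continuous f) {a b : ℝ}
    (hw : ∀ t ∈ uIcc a b, (f t).2 ∈ Icc (w - δ) w) (hx : (f a).1 + L ≤ (f b).1) :
    ∃ a b, (∀ t ∈ uIcc a b, (h.TT d (f t)).2 ∈ Icc (w - δ - δ) (w - δ)) ∧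
      (h.TT d (f a)).1 + L ≤ (h.TT d (f b)).1 := by
  have hL := h.pos
  obtain ⟨p, hp, q, hq, e1, e2, hpq⟩ := gsub (g := fun t => (f t).1) hf.fst
    (lo := (f a).1) (hi := (f a).1 + L) (by linarith) le_rfl hx
  have hit : ∀ s, ∃ t ∈ uIcc p q, (BB γ τ L (f t)).2 = (BB γ τ L (s, (f t).2)).2 := fun s => by
    have k1 := toIcoMod_mem_Ico hL (f a).1 s
    have k2 := toIcoMod_add_toIcoDiv_zsmul hL (f a).1 s
    obtain ⟨t, ht, et⟩ := intermediate_value_uIcc (f := fun t => (f t).1) (a := p) (b := q)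
      hf.fst.continuousOn (mem_uIcc_of_le (e1.le.trans k1.1) (k1.2.le.trans e2.ge))
    refine ⟨t, ht, ?_⟩
    have k3 := congrArg Prod.snd
      (Per.int (f := BB γ τ L) h.B_per (f t) (toIcoDiv hL (f a).1 s))
    have k4 : f t + ((toIcoDiv hL (f a).1 s : ℝ) * L, 0) = (s, (f t).2) := by
      rw [zsmul_eq_mul] at k2
      simp only at et
      exact Prod.ext (by simp only [Prod.fst_add, et, k2]) (by simp)
    rw [k4] at k3
    simpa using k3.symm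
  obtain ⟨s1, hs1⟩ := hD
  obtain ⟨s2, hs2⟩ := hU
  obtain ⟨t1, ht1, k1⟩ := hit s1
  obtain ⟨t2, ht2, k2⟩ := hit s2
  have m1 := hs1 _ (hw t1 (uIcc_subset_uIcc hp hq ht1))
  have m2 := hs2 _ (hw t2 (uIcc_subset_uIcc hp hq ht2))
  obtain ⟨p', hp', q', hq', e3, e4, hpq'⟩ := gsub (g := fun t => (BB γ τ L (f t)).2)
    (h.contB.comp hf).snd (a := t1) (b := t2) (lo := w - δ - δ) (hi := w - δ) (by linarith)
    (by simp only [k1]; linarith) (by simp only [k2]; linarith)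
  refine ⟨q', p', fun t ht => hpq' t (by rwa [uIcc_comm]), ?_⟩
  have n1 := hpq p' (uIcc_subset_uIcc ht1 ht2 hp')
  have n2 := hpq q' (uIcc_subset_uIcc ht1 ht2 hq')
  have n3 : (f p').1 < (BB γ τ L (f p')).1 := (h.U_mem _ _).1
  have n4 : (BB γ τ L (f q')).1 < (f q').1 + L := (h.U_mem _ _).2
  simp only [Ov.TT_apply, e3, e4]
  linarith [n1.1, n2.2]

theorem Ov.climb (h : Ov γ τ L) (hδ : 0 < δ) (hd : 3 * L ≤ d * δ) (hD : ∀ w, Dn γ τ L δ w)
    (hU : ∀ w, Up γ τ L δ w) {c : ℝ → ℝ × ℝ} (hc : Lf (h.TT d) L c) : False := by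
  have hL := h.pos
  obtain ⟨x0, hlo⟩ := hc.toEss.low
  obtain ⟨x1, hhi⟩ := hc.toEss.high
  set w := (c x1).2 + 1 with hw
  let f : ℕ → ℝ → ℝ × ℝ := fun n t => (h.TT d)^[n] (t, w)
  have hf : ∀ n, Continuous (f n) := fun n =>
    ((h.TT d).continuous.iterate n).comp (by fun_prop)
  have hs : ∀ n t, f (n + 1) t = h.TT d (f n t) := fun n t => iterate_succ_apply' _ _ _
  have long : ∀ n : ℕ, ∃ a b, (∀ t ∈ uIcc a b, (f n t).2 ∈ Icc (w - n * δ - δ) (w - n * δ)) ∧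
      (f n a).1 + L ≤ (f n b).1 := fun n => by
    induction n with
    | zero => exact ⟨0, L, fun t _ => by simp [f, hδ.le], by simp [f]⟩
    | succ n ih =>
      obtain ⟨a, b, k1, k2⟩ := ih
      obtain ⟨a', b', k3, k4⟩ := h.gstep hδ hd (hD _) (hU _) (hf n) k1 k2
      refine ⟨a', b', fun t ht => ?_, by rwa [hs, hs]⟩
      have := k3 t ht
      rw [hs]; push_cast
      exact ⟨by linarith [this.1], by linarith [this.2]⟩
  have miss : ∀ n t y, f n t ≠ c y := fun n => by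
    induction n with
    | zero =>
      intro t y e
      have k1 : w = (c y).2 := congrArg Prod.snd e
      linarith [hhi y]
    | succ n ih =>
      intro t y e
      rw [hs] at e
      obtain ⟨x, hx⟩ := hc.back hL (h.TT_per d) e
      exact ih t x hx
  obtain ⟨s0, hs0⟩ : ∃ s, (BB γ τ L (s, w)).2 = w := by
    obtain ⟨s1, hs1⟩ := hD w
    obtain ⟨s2, hs2⟩ := hU w
    obtain ⟨s, -, e⟩ := intermediate_value_uIcc (f := fun s => (BB γ τ L (s, w)).2) (a := s1)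
      (b := s2) (h.contB.comp (f := fun s : ℝ => (s, w)) (by fun_prop)).snd.continuousOn
      (mem_uIcc_of_le (x := w) ((hs1 w ⟨by linarith, le_rfl⟩).trans (by linarith))
        (hs2 w ⟨by linarith, le_rfl⟩))
    exact ⟨s, e⟩
  have touch : ∀ n, f (n + 1) s0 = f n (h.TT d (s0, w)).1 := fun n => by
    have : h.TT d (s0, w) = ((h.TT d (s0, w)).1, w) := Prod.ext rfl hs0
    simp only [f]
    rw [iterate_succ_apply, ← this]
  have conn : ∀ n, ∃ B : Set (ℝ × ℝ), IsPathConnected B ∧ (0, w) ∈ B ∧ range (f n) ⊆ B ∧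
      ∀ y, c y ∉ B := fun n => by
    induction n with
    | zero => exact ⟨_, isPathConnected_range (hf 0), ⟨0, rfl⟩, Subset.rfl,
        fun y ⟨t, ht⟩ => miss 0 t y ht⟩
    | succ n ih =>
      obtain ⟨B, k1, k2, k3, k4⟩ := ih
      exact ⟨B ∪ range (f (n + 1)), k1.union (isPathConnected_range (hf _))
        ⟨_, k3 ⟨_, (touch n).symm⟩, s0, rfl⟩, Or.inl k2, subset_union_right,
        fun y hy => hy.elim (k4 y) fun ⟨t, ht⟩ => miss _ t y ht⟩
  obtain ⟨n, hn⟩ := exists_nat_ge ((w - (c x0).2) / δ)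
  rw [div_le_iff₀ hδ] at hn
  obtain ⟨a, b, k1, -⟩ := long n
  obtain ⟨B, k2, k3, k4, k5⟩ := conn n
  have k6 := (k1 a left_mem_uIcc).2
  obtain ⟨p, ⟨y, rfl⟩, hp⟩ := cross (isPathConnected_range hc.cont) k2
    (fun N => by obtain ⟨_, ⟨x, -, rfl⟩, hx⟩ := hc.toEss.left hL 0 N; exact ⟨_, ⟨x, rfl⟩, hx⟩)
    (fun N => by obtain ⟨_, ⟨x, -, rfl⟩, hx⟩ := hc.toEss.right hL 0 N; exact ⟨_, ⟨x, rfl⟩, hx⟩)
    k3 (k4 ⟨a, rfl⟩)
    (by rintro t ht ⟨x, hx⟩; have := hhi x; rw [hx] at this; simp only at ht this; linarith)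
    (by rintro t ht ⟨x, hx⟩; have := hlo x; rw [hx] at this; simp only at this; linarith)
  exact k5 y hp

end Pool.Agent.MP_61130f_an
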