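import Pool.Agent.MP_61130f_an.Mg.Main

/-! A level of the angle that is never lowered by the billiard map is invariant. -/

namespace Pool.Agent.MP_61130f_an

open Set Filter Topology Function Complex ComplexConjugate
open scoped Real

lemma gbump {f : ℝ → ℝ} {f' b : ℝ} (h : HasDerivAt f f' 0) (hf : 0 < f') (hb : 0 < b) :
    ∃ x ∈ Ioo 0 b, f 0 < f x := by
  have h1 := ((hasDerivAt_iff_tendsto_slope.1 h).mono_left (nhdsGT_le_nhdsNE 0)).eventually_const_lt hf
  obtain ⟨x, k1, k2⟩ := (h1.and (Ioo_mem_nhdsGT hb)).exists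
  rw [slope_def_field, sub_zero] at k1
  exact ⟨x, k2, sub_pos.1 ((div_pos_iff_of_pos_right k2.1).1 k1)⟩

lemma cos_ang_anti : StrictAnti fun y => Real.cos (ang y) := fun a b hab =>
  Real.cos_lt_cos_of_nonneg_of_le_pi (ang_mem a).1.le (ang_mem b).2.le (ang_mono hab)

namespace Ov

variable {γ τ : ℝ → ℂ} {L : ℝ}

lemma gdS (h : Ov γ τ L) {s u : ℝ} (hu : u ∈ Ioo s (s + L)) :
    HasDerivAt (fun x => ‖γ u - γ x‖) (-Real.cos (ang (YY γ τ s u))) s := by
  obtain ⟨l, hl, hq⟩ := polar (h.im_pos hu)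
  rw [show -(qq γ τ s u).re / (qq γ τ s u).im = YY γ τ s u from rfl] at hq
  have n1 : ‖γ u - γ s‖ = l := by
    simpa [qq, h.unit, abs_of_pos hl] using congrArg norm hq
  have d1 := ((h.der s).const_sub (γ u)).norm_sq.sqrt (by rw [n1]; positivity)
  have e : (fun x => √(‖γ u - γ x‖ ^ 2)) = fun x => ‖γ u - γ x‖ :=
    funext fun x => Real.sqrt_sq (norm_nonneg _)
  rw [e] at d1
  refine d1.congr_deriv ?_
  have k := congrArg re hq
  rw [re_ofReal_mul, exp_ofReal_mul_I_re] at k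
  rw [n1, Real.sqrt_sq hl.le, Complex.inner, div_eq_iff (by positivity)]
  simp only [qq, mul_re, conj_re, conj_im, neg_re, neg_im] at k ⊢
  linarith

lemma gdU (h : Ov γ τ L) {s u : ℝ} (hu : u ∈ Ioo s (s + L)) :
    HasDerivAt (fun x => ‖γ x - γ s‖) (Real.cos (ang (YY (rv γ) (rt τ) (-u) (-s)))) u := by
  have d1 := (h.rev.gdS (neg_mem hu)).scomp u (hasDerivAt_neg u)
  refine (d1.congr_deriv (by simp)).congr_of_eventuallyEq (.of_forall fun x => ?_)
  simp only [comp, rv, neg_neg, ← map_sub, norm_conj]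
  exact norm_sub_rev _ _

lemma gint (h : Ov γ τ L) {c u t : ℝ} (hc : |c| < 1) (ht : t ∈ Icc 0 L)
    (hm : ∀ x ∈ Icc 0 L, ‖γ u - γ (u - x)‖ - c * x ≤ ‖γ u - γ (u - t)‖ - c * t) :
    t ∈ Ioo 0 L := by
  have hre : ∀ z : ℂ, (z * conj (τ u)).re ≤ ‖z‖ := fun z =>
    (re_le_norm _).trans (by simp [h.unit])
  have h1 : ((τ u * conj (τ u)).re : ℝ) = 1 := by rw [h.mul_conj]; simp
  refine ⟨lt_of_le_of_ne ht.1 fun e => ?_, lt_of_le_of_ne ht.2 fun e => ?_⟩
  · have d0 : HasDerivAt (fun x : ℝ => γ (u - x)) (-τ u) 0 := by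
      have := HasDerivAt.comp_const_sub u 0 (f := γ) (f' := τ u) (by simpa using h.der u)
      exact this
    have d1 := (reCLM.hasFDerivAt.comp_hasDerivAt 0
      ((d0.const_sub (γ u)).mul_const (conj (τ u)))).sub ((hasDerivAt_id (0 : ℝ)).const_mul c)
    obtain ⟨x, hx, k⟩ := gbump d1 (by
      simp only [neg_neg, reCLM_apply, h1]; linarith [(abs_lt.1 hc).2]) h.pos
    have k1 := hm x ⟨hx.1.le, hx.2.le⟩
    have k2 := hre (γ u - γ (u - x))
    rw [← e] at k1
    simp only [Pi.sub_apply, comp, reCLM_apply, id, sub_zero, sub_self, zero_mul, zero_re,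
      mul_zero, norm_zero] at k k1
    linarith
  · have d0 : HasDerivAt (fun x : ℝ => γ (u + x)) (τ u) 0 := by
      have := HasDerivAt.comp_const_add u 0 (f := γ) (f' := τ u) (by simpa using h.der u)
      exact this
    have d1 := (reCLM.hasFDerivAt.comp_hasDerivAt 0
      ((d0.sub_const (γ u)).mul_const (conj (τ u)))).add ((hasDerivAt_id (0 : ℝ)).const_mul c)
    obtain ⟨x, hx, k⟩ := gbump d1 (by
      simp only [reCLM_apply, h1]; linarith [(abs_lt.1 hc).1]) h.pos
    have k1 := hm (L - x) ⟨by linarith [hx.2], by linarith [hx.1]⟩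
    have k2 := hre (γ (u + x) - γ u)
    rw [e, show u - (L - x) = u + x - L by ring, h.per.sub_eq, h.per.sub_eq, norm_sub_rev] at k1
    simp only [Pi.add_apply, comp, reCLM_apply, id, add_zero, sub_self, zero_mul, zero_re,
      mul_zero, norm_zero] at k k1
    linarith

lemma gcrit (h : Ov γ τ L) {w ε u t : ℝ} (ht : t ∈ Icc 0 L)
    (hm : ∀ᶠ v in 𝓝 u, ∀ x ∈ Icc 0 L, ‖γ v - γ (v - x)‖ - Real.cos (ang w) * x - ε * v ≤
      ‖γ u - γ (u - t)‖ - Real.cos (ang w) * t - ε * u) :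
    (BB γ τ L (u - t, w)).1 = u ∧
      Real.cos (ang (BB γ τ L (u - t, w)).2) = Real.cos (ang w) + ε := by
  have hc : |Real.cos (ang w)| < 1 := by
    rw [← sq_lt_one_iff_abs_lt_one]
    nlinarith [sin_ang w, Real.sin_sq_add_cos_sq (ang w)]
  have ht' := h.gint hc ht fun x hx => by linarith [hm.self_of_nhds x hx]
  have hu : u ∈ Ioo (u - t) (u - t + L) := ⟨by linarith [ht'.1], by linarith [ht'.2]⟩
  have m1 : IsLocalMax (fun x => ‖γ u - γ x‖ - Real.cos (ang w) * (u - x)) (u - t) := by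
    filter_upwards [Ioo_mem_nhds (show u - L < u - t by linarith [ht'.2])
      (show u - t < u by linarith [ht'.1])] with x hx
    have := hm.self_of_nhds (u - x) ⟨by linarith [hx.2], by linarith [hx.1]⟩
    simp only [sub_sub_cancel] at this ⊢
    linarith
  have m2 : IsLocalMax (fun x => ‖γ x - γ (u - t)‖ - Real.cos (ang w) * (x - (u - t)) - ε * x)
      u := by
    filter_upwards [hm, Ioo_mem_nhds hu.1 hu.2] with x k hx
    have := k (x - (u - t)) ⟨by linarith [hx.1], by linarith [hx.2]⟩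
    simp only [sub_sub_cancel] at this ⊢
    linarith
  have z1 := m1.hasDerivAt_eq_zero ((h.gdS hu).sub
    (((hasDerivAt_id (u - t)).const_sub u).const_mul (Real.cos (ang w))))
  have z2 := m2.hasDerivAt_eq_zero (((h.gdU hu).sub
    (((hasDerivAt_id u).sub_const (u - t)).const_mul (Real.cos (ang w)))).sub
    ((hasDerivAt_id u).const_mul ε))
  have y1 : YY γ τ (u - t) u = w := cos_ang_anti.injective (by linarith)
  have y2 : UU γ τ L (u - t) w = u := by rw [← y1]; exact h.UY hu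
  simp only [BB, y2]
  exact ⟨trivial, by linarith⟩

lemma gone' (h : Ov γ τ L) {w : ℝ} (hw : ∀ s, w ≤ (BB γ τ L (s, w)).2) (s : ℝ) :
    (BB (rv γ) (rt τ) L (s, w)).2 = w := by
  have hL := h.pos
  have hγ := h.contg
  set c := Real.cos (ang w) with hc
  let F : ℝ → ℝ → ℝ := fun u x => ‖γ u - γ (u - x)‖ - c * x
  have hex : ∀ u, ∃ t ∈ Icc 0 L, ∀ x ∈ Icc 0 L, F u x ≤ F u t := fun u =>
    isCompact_Icc.exists_isMaxOn (f := F u) ⟨0, le_rfl, hL.le⟩ (by fun_prop)
  choose t ht hmax using hex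
  have hper : ∀ x, Periodic (fun u => F u x) L := fun x u => by
    simp only [F]
    rw [h.per, show u + L - x = u - x + L by ring, h.per]
  have key : ∀ u v x, x ∈ Icc 0 L → F v x ≤ F u (t u) := fun u v x hx => by
    by_contra hlt
    rw [not_le] at hlt
    have k1 := toIcoMod_mem_Ico hL u v
    have k2 : F (toIcoMod hL u v) x = F v x := by
      have := (hper x).zsmul (toIcoDiv hL u v) (toIcoMod hL u v)
      simp only [toIcoMod_add_toIcoDiv_zsmul] at this
      exact this.symm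
    generalize toIcoMod hL u v = v' at k1 k2
    set ε := (F v x - F u (t u)) / L with hε
    have hε0 : 0 < ε := div_pos (sub_pos.2 hlt) hL
    have hεL : ε * L = F v x - F u (t u) := div_mul_cancel₀ _ hL.ne'
    obtain ⟨⟨a, b⟩, ⟨ha, hb⟩, hab⟩ := (isCompact_Icc.prod isCompact_Icc).exists_isMaxOn
      (s := Icc u (u + L) ×ˢ Icc 0 L) (f := fun z : ℝ × ℝ => F z.1 z.2 - ε * z.1)
      ⟨(v', x), ⟨k1.1, k1.2.le⟩, hx⟩ (by fun_prop)
    simp only at ha hb
    have k3 : F v' x - ε * v' ≤ F a b - ε * a := hab (a := (v', x)) ⟨⟨k1.1, k1.2.le⟩, hx⟩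
    have k4 : ε * v' < ε * (u + L) := mul_lt_mul_of_pos_left k1.2 hε0
    have a1 : u < a := lt_of_le_of_ne ha.1 fun e => by
      rw [← e] at k3; linarith [hmax u b hb]
    have a2 : a < u + L := lt_of_le_of_ne ha.2 fun e => by
      have : F (u + L) b = F u b := hper b u
      rw [e, this] at k3; linarith [hmax u b hb]
    have k5 := (h.gcrit (w := w) (ε := ε) (u := a) hb (by
      filter_upwards [Ioo_mem_nhds a1 a2] with v hv x hx
      exact hab (a := (v, x)) ⟨⟨hv.1.le, hv.2.le⟩, hx⟩)).2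
    have k6 : Real.cos (ang _) ≤ Real.cos (ang w) := cos_ang_anti.antitone (hw (a - b))
    linarith
  obtain ⟨k1, k2⟩ := h.gcrit (w := w) (ε := 0) (u := -s) (ht (-s))
    (.of_forall fun v x hx => by
      have := key (-s) v x hx
      simp only [F] at this
      linarith)
  have k3 : (BB γ τ L (-s - t (-s), w)).2 = w := cos_ang_anti.injective (by simpa using k2)
  have k4 := h.B_inv (-s - t (-s), w)
  rw [k1, k3, neg_neg] at k4
  rw [k4]

theorem gone (h : Ov γ τ L) {w : ℝ} (hw : ∀ s, w ≤ (BB γ τ L (s, w)).2) (s : ℝ) :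
    (BB γ τ L (s, w)).2 = w := by
  simpa using h.rev.gone' (fun s => (h.gone' hw s).ge) s

end Ov

end Pool.Agent.MP_61130f_an
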