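import Pool.Agent.MP_61130f_an.G10.Climb
import Pool.Agent.MP_61130f_an.G10.One

/-! Uniform descent for ovals without an invariant level of the angle. -/

namespace Pool.Agent.MP_61130f_an

section

open Set Filter Topology Function Real

theorem gaffine {σ : ℝ → ℝ} (hc : Continuous σ) (hm : Monotone σ) {T L : ℝ} (hT : 0 < T)
    (hp : ∀ x, σ (x + T) = σ x + L)
    (h : ∀ ε > 0, ∃ a, 0 < a ∧ a < ε ∧ ∀ ψ,
      GG σ ψ a ≤ 4 * (ε * a ^ 2) * (σ (ψ + 4 * a) - σ ψ)) :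
    ∃ R, ∀ x, σ x = σ 0 + R * x := by
  have key : ∀ A B t, A ≤ B → 0 ≤ t → σ (B + t) - σ B ≤ σ (A + t) - σ A := by
    intro A B t hAB ht
    set W := σ (B + t + 2) - σ A with hW
    have hW0 : 0 ≤ W := sub_nonneg.2 (hm (by linarith))
    have hu : Continuous fun ε => σ (B + t) - σ (A + t + 2 * ε) - σ (B + 2 * ε) + σ A -
        48 * ε * t * W := by fun_prop
    have h0 := le_of_tendsto (b := 0) ((hu.tendsto 0).mono_left (nhdsWithin_le_nhds (s := Ioi 0))) ?_
    · simp only [mul_zero, add_zero, zero_mul, sub_zero] at h0; linarith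
    filter_upwards [Ioo_mem_nhdsGT (show (0 : ℝ) < 1 / 2 by norm_num)] with ε hε
    obtain ⟨a, ha, haε, hψ⟩ := h ε hε.1
    have ha1 : a ≤ 1 := by linarith [hε.2]
    have hδ : 0 ≤ ε * a ^ 2 := mul_nonneg hε.1.le (sq_nonneg a)
    have k1 := second hc hm ha hδ hψ hAB ht
    have m0 := mass_ge ha ha1
    set m := 2 * sin a - 2 * a * cos a with hm'
    have a3 := pow_pos ha 3
    have k2 := (KK_bd hc hm ha ha1 (B + t)).1
    have k3 := (KK_bd hc hm ha ha1 (A + t)).2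
    have k4 := (KK_bd hc hm ha ha1 B).2
    have k5 := (KK_bd hc hm ha ha1 A).1
    have k6 := hm (show A + t + 2 * a ≤ A + t + 2 * ε by linarith only [haε])
    have k7 := hm (show B + 2 * a ≤ B + 2 * ε by linarith only [haε])
    have k8 := hm (show B + t + 4 * a ≤ B + t + 2 by linarith only [hε.2, haε])
    have k9 : t * (16 * a * (ε * a ^ 2) * (σ (B + t + 4 * a) - σ A)) ≤ m * (48 * ε * t * W) := by
      have p1 : 0 ≤ 48 * ε * t := by have := hε.1; positivity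
      calc _ = 48 * ε * t * (a ^ 3 / 3 * (σ (B + t + 4 * a) - σ A)) := by ring
        _ ≤ 48 * ε * t * (m * W) := mul_le_mul_of_nonneg_left
            (mul_le_mul m0 (by linarith only [k8]) (sub_nonneg.2 (hm (by linarith only [hAB, ht, ha]))) (by linarith only [m0, a3])) p1
        _ = _ := by ring
    have mpos : 0 < m := by linarith only [m0, a3]
    refine le_of_mul_le_mul_left ?_ mpos
    nlinarith only [k1, m0, a3, k2, k3, k4, k5, k6, k7, k9]
  have inc : ∀ t, 0 ≤ t → ∀ x y, σ (x + t) - σ x ≤ σ (y + t) - σ y := by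
    intro t ht x y
    have hper : Periodic (fun x => σ (x + t) - σ x) T := fun x => by
      simp only [add_right_comm x T, hp]; ring
    obtain ⟨n, hn⟩ := exists_nat_ge ((y - x) / T)
    rw [div_le_iff₀ hT] at hn
    have : σ (x + n * T + t) - σ (x + n * T) = σ (x + t) - σ x := hper.nat_mul n x
    rw [← this]
    exact key _ _ _ (by linarith) ht
  let f : ℝ →+ ℝ := AddMonoidHom.mk' (fun x => σ x - σ 0) fun x y => by
    rcases le_total 0 y with hy | hy
    · have k1 := inc y hy x 0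
      have k2 := inc y hy 0 x
      simp only [zero_add] at k1 k2; linarith
    · have k1 := inc (-y) (by linarith) (x + y) y
      have k2 := inc (-y) (by linarith) y (x + y)
      simp only [add_neg_cancel_right, add_neg_cancel] at k1 k2; linarith
  refine ⟨σ 1 - σ 0, fun x => ?_⟩
  have := map_real_smul f (hc.sub continuous_const) x 1
  simp only [f, AddMonoidHom.mk'_apply, smul_eq_mul, mul_one] at this
  linarith

end

open Set Filter Topology Function Complex ComplexConjugate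
open scoped Real

lemma gsin (x y : ℝ) : Real.sin (ang x - ang y) = Real.sin (ang x) * Real.sin (ang y) * (x - y) := by
  rw [Real.sin_sub, cos_ang, cos_ang]; ring

lemma gs1 {x y δ : ℝ} (h0 : 0 < δ) (h1 : δ ≤ 1 / 4) (h : x ≤ y + 2 * δ) :
    Real.sin (ang x - ang y) ≤ 4 * (δ * ang y ^ 2) := by
  have sx := sin_ang x
  have sy := sin_ang y
  have ay := (ang_mem y).1
  have p0 : 0 ≤ 4 * (δ * ang y ^ 2) := by positivity
  rcases le_total x y with k | k
  · rw [gsin]; nlinarith [mul_pos sx sy]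
  · have e := gsin x y
    have e1 : Real.sin (ang x) = Real.sin (ang x - ang y) * Real.cos (ang y) +
        Real.cos (ang x - ang y) * Real.sin (ang y) := by rw [← Real.sin_add]; simp
    have e2 : 0 ≤ Real.sin (ang x - ang y) := by rw [e]; have := sub_nonneg.2 k; positivity
    have e3 : Real.sin (ang x) ≤ Real.sin (ang x - ang y) + Real.sin (ang y) := by
      nlinarith [Real.cos_le_one (ang y), Real.cos_le_one (ang x - ang y)]
    have e4 : Real.sin (ang y) * (x - y) ≤ 1 / 2 := by nlinarith [Real.sin_le_one (ang y)]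
    have e5 : Real.sin (ang x) ≤ 2 * Real.sin (ang y) := by nlinarith
    have e6 := Real.sin_le ay.le
    have e7 : Real.sin (ang x) * Real.sin (ang y) ≤ 2 * ang y ^ 2 := by nlinarith
    rw [e]
    calc _ ≤ 2 * ang y ^ 2 * (2 * δ) :=
          mul_le_mul e7 (by linarith) (sub_nonneg.2 k) (by positivity)
      _ = _ := by ring

lemma gs2 {x y δ : ℝ} (h0 : 0 < δ) (h : x ≤ y + 2 * δ) :
    Real.sin (ang x - ang y) ≤ 4 * (δ * ang x ^ 2) := by
  have sx := sin_ang x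
  have sy := sin_ang y
  have ax := (ang_mem x).1
  have p0 : 0 ≤ δ * ang x ^ 2 := by positivity
  rw [gsin]
  rcases le_total x y with k | k
  · nlinarith [mul_pos sx sy]
  · have e1 := Real.sin_le ax.le
    have e2 := (Real.sin_le (ang_mem y).1.le).trans (ang_mono.monotone k)
    calc _ ≤ ang x * ang x * (2 * δ) := mul_le_mul (mul_le_mul e1 e2 sy.le ax.le) (by linarith)
          (sub_nonneg.2 k) (by positivity)
      _ ≤ _ := by nlinarith

lemma gsmall {ε : ℝ} (hε : 0 < ε) : ∃ W, ∀ y ≤ W, ang y < ε := by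
  refine ⟨-Real.cot (min ε 1) - 1, fun y hy => (ang_mono (show y < -Real.cot (min ε 1) by
    linarith)).trans_le ?_⟩
  rw [ang_cot (lt_min hε one_pos) ((min_le_right _ _).trans_lt (by linarith [Real.pi_gt_three]))]
  exact min_le_left _ _

namespace Ov

variable {γ τ : ℝ → ℂ} {L : ℝ}

lemma gchord (h : Ov γ τ L) {θ : ℝ → ℝ} (he : ∀ s, τ s = exp (θ s * I))
    (h1 : ∀ s u, u ∈ Ioo s (s + L) → θ u - θ s ∈ Ioo 0 (2 * π)) {s u : ℝ}
    (hu : u ∈ Ioo s (s + L)) :
    θ u = θ s + ang (YY γ τ s u) + ang (YY (rv γ) (rt τ) (-u) (-s)) ∧ ∀ a : ℝ,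
      ((γ u - γ s) * exp (-(θ s + a : ℝ) * I)).im =
        ‖γ u - γ s‖ * Real.sin (ang (YY γ τ s u) - a) := by
  obtain ⟨l, hl, hq⟩ := polar (h.im_pos hu)
  obtain ⟨l', hl', hq'⟩ := polar (h.rev.im_pos (neg_mem hu))
  rw [show -(qq γ τ s u).re / (qq γ τ s u).im = YY γ τ s u from rfl] at hq
  rw [show -(qq (rv γ) (rt τ) (-u) (-s)).re / _ = YY (rv γ) (rt τ) (-u) (-s) from rfl,
    qq_rv] at hq'
  generalize YY γ τ s u = y at *
  generalize YY (rv γ) (rt τ) (-u) (-s) = y' at *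
  have hc : conj (τ s) = exp (-θ s * I) := by rw [he, ← exp_conj]; simp
  have n1 : l = ‖γ u - γ s‖ := by
    simpa [qq, h.unit, abs_of_pos hl] using (congrArg norm hq).symm
  have n2 : l' = ‖γ u - γ s‖ := by
    simpa [-map_sub, h.unit, abs_of_pos hl'] using (congrArg norm hq').symm
  constructor
  · rw [add_assoc, ← sub_eq_iff_eq_add']
    refine arg_eq (h1 s u hu) ⟨by linarith [(ang_mem y).1, (ang_mem y').1],
      by linarith only [(ang_mem y).2, (ang_mem y').2]⟩ ?_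
    have k1 : qq γ τ s u * (conj (γ u - γ s) * τ u) = (l : ℂ) ^ 2 * exp ((θ u - θ s : ℝ) * I) := by
      rw [qq, hc, he u, n1, ← Complex.mul_conj']
      push_cast
      rw [sub_mul (θ u : ℂ), exp_sub, neg_mul, exp_neg]; field_simp
    rw [hq, hq', n2, ← n1] at k1
    refine mul_left_cancel₀ (pow_ne_zero 2 (ofReal_ne_zero.2 hl.ne')) (k1.symm.trans ?_)
    push_cast
    rw [add_mul, exp_add]; ring
  · intro a
    have k : (γ u - γ s) * exp (-(θ s + a : ℝ) * I) = l * exp ((ang y - a : ℝ) * I) := by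
      have : exp (-(θ s + a : ℝ) * I) = exp (-θ s * I) * exp (-(a * I)) := by
        rw [← exp_add]; push_cast; ring_nf
      rw [this, ← mul_assoc, ← hc, show (γ u - γ s) * conj (τ s) = _ from hq, mul_assoc, ← exp_add]
      push_cast; ring_nf
    rw [k, im_ofReal_mul, exp_ofReal_mul_I_im, n1]

lemma glen (h : Ov γ τ L) {s u : ℝ} (hu : s ≤ u) : ‖γ u - γ s‖ ≤ u - s := by
  have := convex_univ.norm_image_sub_le_of_norm_hasDerivWithin_le (C := 1) (f := γ) (f' := τ)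
    (fun x _ => (h.der x).hasDerivWithinAt) (fun x _ => (h.unit x).le) (mem_univ s) (mem_univ u)
  rwa [one_mul, Real.norm_of_nonneg (sub_nonneg.2 hu)] at this

lemma gcirc (h : Ov γ τ L) {θ : ℝ → ℝ} (hθ : Continuous θ) (he : ∀ s, τ s = exp (θ s * I))
    (h1 : ∀ s u, u ∈ Ioo s (s + L) → θ u - θ s ∈ Ioo 0 (2 * π))
    (h2 : ∀ s, θ (s + L) = θ s + 2 * π)
    (key : ∀ ε > 0, ∃ a, 0 < a ∧ a < ε ∧ (a < 1 → ∀ s u, u ∈ Ioo s (s + L) → θ u = θ s + 2 * a →
      Real.sin (ang (YY γ τ s u) - a) ≤ 4 * (ε * a ^ 2))) :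
    ∃ z r, ∀ s, ‖γ s - z‖ = r := by
  have hL := h.pos
  obtain ⟨hm, hs⟩ := h.sigma hθ h1 h2
  let e := hm.orderIsoOfSurjective θ hs
  have hi : ∀ x, θ (e.symm x) = x := e.apply_symm_apply
  have hi' : ∀ x, e.symm (θ x) = x := e.symm_apply_apply
  have hc : Continuous e.symm := e.symm.continuous
  obtain ⟨R, hR⟩ := gaffine hc e.symm.monotone Real.two_pi_pos (L := L)
    (fun x => hm.injective (by rw [h2, hi, hi])) fun ε hε => by
      obtain ⟨a, a0, a1, ha⟩ := key (min ε 1) (lt_min hε one_pos)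
      have a2 : a < 1 := a1.trans_le (min_le_right _ _)
      refine ⟨a, a0, a1.trans_le (min_le_left _ _), fun ψ => ?_⟩
      have hu : e.symm (ψ + 2 * a) ∈ Ioo (e.symm ψ) (e.symm ψ + L) :=
        ⟨hm.lt_iff_lt.1 (by rw [hi, hi]; linarith),
          hm.lt_iff_lt.1 (by rw [h2, hi, hi]; linarith [Real.pi_gt_three])⟩
      have k1 := ha a2 _ _ hu (by rw [hi, hi])
      have k2 := (h.gchord he h1 hu).2 a
      rw [hi] at k2
      rw [h.GG_im he hm.monotone hc hi, k2]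
      have k3 := h.glen hu.1.le
      have k4 : e.symm (ψ + 2 * a) ≤ e.symm (ψ + 4 * a) := e.symm.monotone (by linarith)
      have k5 : min ε 1 * a ^ 2 ≤ ε * a ^ 2 :=
        mul_le_mul_of_nonneg_right (min_le_left _ _) (sq_nonneg a)
      have k6 : 0 ≤ 4 * (ε * a ^ 2) := by positivity
      calc _ ≤ ‖γ (e.symm (ψ + 2 * a)) - γ (e.symm ψ)‖ * (4 * (ε * a ^ 2)) :=
            mul_le_mul_of_nonneg_left (by linarith) (norm_nonneg _)
        _ ≤ (e.symm (ψ + 4 * a) - e.symm ψ) * (4 * (ε * a ^ 2)) :=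
            mul_le_mul_of_nonneg_right (by linarith) k6
        _ = _ := by ring
  have hd : ∀ φ : ℝ, HasDerivAt (fun x : ℝ => γ (e.symm x) + R * I * exp (x * I)) 0 φ := by
    intro φ
    have k := ((h.derR he hm.monotone hc hi φ).add
      ((((hasDerivAt_id φ).ofReal_comp.const_mul (R : ℂ)).const_add (e.symm 0 : ℂ)).mul
        (der_exp φ))).add ((der_exp φ).const_mul (R * I))
    refine (k.congr_deriv ?_).congr_of_eventuallyEq (.of_forall fun x => ?_)
    · rw [hR φ]; simp only [id]; push_cast; linear_combination (R * exp (φ * I)) * I_mul_I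
    · simp only [Pi.add_apply, Pi.mul_apply, id]
      rw [show ((e.symm x : ℝ) : ℂ) = e.symm 0 + R * x by rw [hR x]; push_cast; ring]; ring
  refine ⟨γ (e.symm 0) + R * I * exp ((0 : ℝ) * I), |R|, fun s => ?_⟩
  rw [← is_const_of_deriv_eq_zero (fun x => (hd x).differentiableAt) (fun x => (hd x).deriv)
    (θ s) 0, hi']
  simp

lemma gR1 (h : Ov γ τ L) (s u : ℝ) : YY γ τ u (s + L) = -YY (rv γ) (rt τ) (-u) (-s) := by
  simp only [YY]
  rw [qq_rv, qq, h.per]
  simp only [mul_re, mul_im, sub_re, sub_im, conj_re, conj_im]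
  rw [← neg_div]
  congr 1 <;> ring

lemma gR2 (h : Ov γ τ L) (s u : ℝ) : YY (rv γ) (rt τ) (-(s + L)) (-u) = -YY γ τ s u := by
  simp only [YY]
  rw [qq_rv, qq, h.per, h.pert]
  simp only [mul_re, mul_im, sub_re, sub_im, conj_re, conj_im]
  rw [← neg_div]
  congr 1 <;> ring

lemma gneg (h : Ov γ τ L) (s y : ℝ) :
    (BB (rv γ) (rt τ) L (-s, -y)).2 = -(BB γ τ L (s, y)).2 := by
  have hu := h.U_mem s y
  have k1 : YY (rv γ) (rt τ) (-s) (-UU γ τ L s y + L) = -y := by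
    have := h.rev.Y_per (-(s + L)) (-UU γ τ L s y)
    rw [h.gR2, h.YU, show -(s + L) + L = -s by ring] at this
    exact this
  have k2 : UU (rv γ) (rt τ) L (-s) (-y) = -UU γ τ L s y + L := by
    rw [← k1]; exact h.rev.UY ⟨by linarith [hu.2], by linarith [hu.1]⟩
  simp only [BB, k2, rv_rv, rt_rt, neg_neg]
  rw [← h.gR1, ← h.Y_per]
  congr 1; ring

lemma gendL (h : Ov γ τ L) (hn : ¬∃ z r, ∀ s, ‖γ s - z‖ = r) :
    ∃ δ > 0, ∃ W, ∀ w ≤ W, Dn γ τ L δ w := by
  by_contra H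
  simp only [Dn, not_exists, not_and, not_forall, not_le] at H
  obtain ⟨θ, hθ, he, h1, h2⟩ := h.theta
  obtain ⟨hm, -⟩ := h.sigma hθ h1 h2
  refine hn (h.gcirc hθ he h1 h2 fun ε hε => ?_)
  obtain ⟨W, hW⟩ := gsmall hε
  have hδ : 0 < min ε (1 / 4) := lt_min hε (by norm_num)
  obtain ⟨w, hw, H⟩ := H _ hδ W
  set δ := min ε (1 / 4)
  refine ⟨ang (w - 2 * δ), (ang_mem _).1, hW _ (by linarith), fun _ s v hv e => ?_⟩
  obtain ⟨y, hy, k⟩ := H s
  have hu := h.U_mem s y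
  have c1 := (h.gchord he h1 hu).1
  rw [h.YU] at c1
  have c2 : ang (w - 2 * δ) ≤ ang y := ang_mono.monotone (by linarith [hy.1])
  have c3 : ang (w - 2 * δ) ≤ ang (YY (rv γ) (rt τ) (-UU γ τ L s y) (-s)) :=
    ang_mono.monotone k.le
  have c4 : v ≤ UU γ τ L s y := hm.le_iff_le.1 (by linarith)
  have c5 := (h.mono s).monotoneOn hv hu c4
  rw [h.YU] at c5
  refine (gs1 hδ (min_le_right _ _) (by linarith [hy.2])).trans ?_
  have := mul_le_mul_of_nonneg_right (min_le_left ε (1 / 4)) (sq_nonneg (ang (w - 2 * δ)))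
  linarith

lemma gendH (h : Ov γ τ L) (hn : ¬∃ z r, ∀ s, ‖γ s - z‖ = r) :
    ∃ δ > 0, ∃ W, ∀ w, W ≤ w → Dn γ τ L δ w := by
  by_contra H
  simp only [Dn, not_exists, not_and, not_forall, not_le] at H
  obtain ⟨θ, hθ, he, h1, h2⟩ := h.theta
  obtain ⟨hm, -⟩ := h.sigma hθ h1 h2
  refine hn (h.gcirc hθ he h1 h2 fun ε hε => ?_)
  obtain ⟨W, hW⟩ := gsmall hε
  obtain ⟨w, hw, H⟩ := H _ hε (2 * ε - W)
  refine ⟨ang (2 * ε - w), (ang_mem _).1, hW _ (by linarith), fun _ v t hv e => ?_⟩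
  obtain ⟨y, hy, k⟩ := H (t - L)
  have hu := h.U_mem (t - L) y
  set u := UU γ τ L (t - L) y with hud
  have ht : t ∈ Ioo u (u + L) := ⟨by linarith [hu.2], by linarith [hu.1]⟩
  have r1 := h.gR1 (t - L) u
  have r2 := h.gR2 (t - L) u
  rw [sub_add_cancel] at r1 r2
  rw [hud, h.YU, ← hud] at r2
  have c1 := (h.gchord he h1 ht).1
  have k' : w - 2 * ε < YY (rv γ) (rt τ) (-u) (-(t - L)) := k
  have c2 : ang (YY γ τ u t) ≤ ang (2 * ε - w) := ang_mono.monotone (by linarith)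
  have c3 : ang (YY (rv γ) (rt τ) (-t) (-u)) ≤ ang (2 * ε - w) :=
    ang_mono.monotone (by linarith [hy.1])
  have c4 : v ≤ u := hm.le_iff_le.1 (by linarith)
  have c5 := (h.rev.mono (-t)).monotoneOn (neg_mem ht) (neg_mem hv) (neg_le_neg c4)
  have c6 := (h.gchord he h1 hv).1
  rw [show ang (YY γ τ v t) - ang (2 * ε - w) =
    ang (2 * ε - w) - ang (YY (rv γ) (rt τ) (-t) (-v)) by linarith]
  exact gs2 hε (by linarith [hy.2])

lemma gdn_mono {δ δ' w : ℝ} (hd : δ' ≤ δ) (h : Dn γ τ L δ w) : Dn γ τ L δ' w :=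
  h.imp fun _ hs y hy => (hs y ⟨by linarith [hy.1], hy.2⟩).trans (by linarith)

theorem gdown (h : Ov γ τ L) (hn : ∀ w, ∃ s, (BB γ τ L (s, w)).2 ≠ w) :
    ∃ δ > 0, ∀ w, Dn γ τ L δ w := by
  have hc : ¬∃ z r, ∀ s, ‖γ s - z‖ = r := fun ⟨z, r, hr⟩ =>
    (hn 0).elim fun s hs => hs (h.circle hr (s, 0))
  obtain ⟨δ1, p1, W1, k1⟩ := h.gendL hc
  obtain ⟨δ2, p2, W2, k2⟩ := h.gendH hc
  obtain ⟨δ3, p3, k3⟩ : ∃ δ > 0, ∀ w ∈ Icc W1 W2, Dn γ τ L δ w := by
    refine isCompact_Icc.induction_on (p := fun S => ∃ δ > 0, ∀ w ∈ S, Dn γ τ L δ w)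
      ⟨1, one_pos, by simp⟩ (fun S T hST ⟨δ, p, k⟩ => ⟨δ, p, fun w hw => k w (hST hw)⟩)
      (fun S T ⟨δ, p, k⟩ ⟨δ', p', k'⟩ => ⟨min δ δ', lt_min p p', fun w hw => hw.elim
        (fun hw => gdn_mono (min_le_left _ _) (k w hw))
        fun hw => gdn_mono (min_le_right _ _) (k' w hw)⟩) fun w _ => ?_
    obtain ⟨s, hs⟩ : ∃ s, (BB γ τ L (s, w)).2 < w := by
      by_contra H
      simp only [not_exists, not_lt] at H
      exact (hn w).elim fun s hs => hs (h.gone H s)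
    obtain ⟨m, m1, m2⟩ := exists_between hs
    have hev : ∀ᶠ y in 𝓝 w, (BB γ τ L (s, y)).2 < m :=
      (h.contB.comp (f := fun y : ℝ => (s, y)) (by fun_prop)).snd.continuousAt.eventually_lt
        continuousAt_const m1
    obtain ⟨r, r0, hr⟩ := Metric.eventually_nhds_iff.1 hev
    have q0 : 0 < min (r / 3) ((w - m) / 3) := lt_min (by linarith) (by linarith)
    have q1 := min_le_left (r / 3) ((w - m) / 3)
    have q2 := min_le_right (r / 3) ((w - m) / 3)
    set δ := min (r / 3) ((w - m) / 3)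
    refine ⟨Ioo (w - δ) (w + δ), mem_nhdsWithin_of_mem_nhds (Ioo_mem_nhds (by linarith)
      (by linarith)), δ, q0, fun x hx => ⟨s, fun y hy => ?_⟩⟩
    have := hr (y := y) (by
      rw [Real.dist_eq, abs_lt]; constructor <;> linarith [hx.1, hx.2, hy.1, hy.2])
    linarith [hx.1]
  refine ⟨min δ1 (min δ2 δ3), lt_min p1 (lt_min p2 p3), fun w => ?_⟩
  rcases le_total w W1 with a | a
  · exact gdn_mono (min_le_left _ _) (k1 w a)
  rcases le_total w W2 with b | b
  · exact gdn_mono ((min_le_right _ _).trans (min_le_right _ _)) (k3 w ⟨a, b⟩)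
  · exact gdn_mono ((min_le_right _ _).trans (min_le_left _ _)) (k2 w b)

theorem gnone (h : Ov γ τ L) (hn : ∀ w, ∃ s, (BB γ τ L (s, w)).2 ≠ w) :
    ∃ d₀, ∀ d, d₀ ≤ d → ∀ c, ¬Lf (h.TT d) L c := by
  obtain ⟨δ1, p1, k1⟩ := h.gdown hn
  obtain ⟨δ2, p2, k2⟩ := h.rev.gdown fun w => by
    obtain ⟨s, hs⟩ := hn (-w)
    refine ⟨-s, fun e => hs ?_⟩
    have := h.gneg s (-w)
    rw [neg_neg, e] at this
    linarith
  have p : 0 < min δ1 δ2 := lt_min p1 p2
  refine ⟨3 * L / min δ1 δ2, fun d hd c hc => h.climb p ((div_le_iff₀ p).1 hd)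
    (fun w => gdn_mono (min_le_left _ _) (k1 w)) (fun w => ?_) hc⟩
  obtain ⟨s, hs⟩ := gdn_mono (min_le_right δ1 δ2) (k2 (min δ1 δ2 - w))
  refine ⟨-s, fun y hy => ?_⟩
  have e := h.gneg (-s) y
  have := hs (-y) ⟨by linarith [hy.2], by linarith [hy.1]⟩
  rw [neg_neg] at e
  linarith

end Ov

theorem gmain {γ : ℝ → ℂ} {L : ℝ} (h' : IsOval γ L) :
    (∀ d₀ : ℝ, ∃ d, d₀ ≤ d ∧ ∃ C, IsLeaf γ L d C) ↔ ∃ α, ∀ s, ∃ u, Bil γ L (s, α) (u, α) := by
  have h := h'.ov
  have hL := h.pos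
  have e : (∃ α, ∀ s, ∃ u, Bil γ L (s, α) (u, α)) ↔
      ∃ w, ∀ s, (BB γ (deriv γ) L (s, w)).2 = w := by
    constructor
    · rintro ⟨α, H⟩
      refine ⟨-Real.cot α, fun s => ?_⟩
      obtain ⟨u, hu⟩ := H s
      obtain ⟨p, k1, k2⟩ := (bil_iff h).1 hu
      have k3 := congrArg kin k1
      have k4 := congrArg kin k2
      rw [kin_kap] at k3 k4
      rw [← k3] at k4
      exact (congrArg Prod.snd k4).symm
    · rintro ⟨w, H⟩
      refine ⟨ang w, fun s => ⟨(BB γ (deriv γ) L (s, w)).1, (bil_iff h).2 ⟨(s, w), rfl, ?_⟩⟩⟩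
      simp only [kap, H]
  rw [e]
  constructor
  · intro H
    by_contra hn
    simp only [not_exists, not_forall] at hn
    obtain ⟨d₀, k⟩ := h.gnone hn
    obtain ⟨d, hd, C, hC⟩ := H d₀
    obtain ⟨c, hc, -⟩ := lf_of_leaf h hC
    exact k d hd c hc
  · rintro ⟨w, H⟩ d
    exact ⟨d, le_rfl, _, leaf_of_lf h (c := fun x : ℝ => (x * L, w))
      ⟨⟨by fun_prop, fun x => by simp [add_mul]⟩,
        fun a b hab => mul_right_cancel₀ hL.ne' (congrArg Prod.fst hab),
        fun x => ⟨(h.TT d (x * L, w)).1 / L, Prod.ext (by simp [hL.ne']) (H _)⟩⟩⟩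

end Pool.Agent.MP_61130f_an
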